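import Pool.Agent.Lib.MP_10be03_gt.KUDef

/-!
Nahm rings and their realisation as the homotopy of an `E₂`-ring over `KU`.
-/

noncomputable section
open scoped TensorProduct

namespace Pool.Agent.Lib.E2

/-- The ring of Laurent polynomials over `ℤ` in `r` variables. -/
abbrev Laur (r : ℕ) : Type := AddMonoidAlgebra ℤ (Fin r → ℤ)

/-- The monomial `v ^ w`. -/
def vm {r : ℕ} (w : Fin r → ℤ) : Laur r := AddMonoidAlgebra.single w 1

/-- The `c`-th Nahm function `(-1) ^ K c c * v ^ (K c) * ∏_{S ∋ c} (1 - ∏_{d ∈ S} v_d) ^ m S`. -/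
def nahmF {r : ℕ} (K : Matrix (Fin r) (Fin r) ℤ) (m : Finset (Fin r) → ℕ) (c : Fin r) : Laur r :=
  (-1) ^ (K c c).natAbs * vm (K c) *
    ∏ S : Finset (Fin r) with c ∈ S, (1 - ∏ d ∈ S, vm (Pi.single d 1)) ^ m S

/-- The list of the Nahm equations `1 - f_c`. -/
def nahmSeq {r : ℕ} (K : Matrix (Fin r) (Fin r) ℤ) (m : Finset (Fin r) → ℕ) : List (Laur r) :=
  List.ofFn fun c => 1 - nahmF K m c

/-- The Nahm ring. -/
abbrev NahmRing {r : ℕ} (K : Matrix (Fin r) (Fin r) ℤ) (m : Finset (Fin r) → ℕ) : Type :=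
  Laur r ⧸ Ideal.ofList (nahmSeq K m)

/-- There is an `E₂`-ring `R` with a multiplicative map from `KU`, whose homotopy is `A ⊗ π_* KU`,
and points `z i` of `R₀` that act as the elements `u i` of `A`. -/
def Realises (A : Type) [CommRing A] {ι : Type} (u : ι → A) : Prop :=
  KUSpec ∧ ∃ (hKU : IsO KUpre) (O : Operad) (π : ∀ (S : Type) [Finite S], O.O S → D2 S)
    (R : OSp) (μ : MulData O R.toPreO) (φ : OMap ⟨KUpre, hKU⟩ R) (c : O.O Bool) (z : ι → R.X 0)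
    (T : ι → SMap R.toS R.toS),
    IsE2 O π ∧ IsAlg O R.toPreO μ ∧
    (∀ (c₀ : O.O Empty) (d : Dec (fun s : Empty => s.elim) 0) (x : ∀ s : Empty, R.X s.elim),
      φ.f 0 kuOne = μ.ap c₀ d x) ∧
    (∀ (c' : O.O Bool) {n : Bool → ℕ} {N : ℕ} (d : Dec n N) (x : ∀ b, KUX (n b)),
      φ.f N (kuMul d (x true) (x false)) = μ.ap c' d fun b => φ.f (n b) (x b)) ∧
    (∀ (i : ι) (N : ℕ) (d : Dec (fun b : Bool => cond b 0 N) N)
      (x : ∀ b : Bool, R.X (cond b 0 N)),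
      (∀ v, d.map false v = v) → x true = z i → (T i).f N (x false) = μ.ap c d x) ∧
    ∀ a b : ℕ, ∃ Θ : A ⊗[ℤ] (OSp.toS ⟨KUpre, hKU⟩).Pi a b ≃+ R.toS.Pi a b,
      (∀ y, Θ (1 ⊗ₜ y) = φ.toS.pi a b y) ∧
      ∀ i x y, (T i).pi a b (Θ (x ⊗ₜ y)) = Θ ((u i * x) ⊗ₜ y)

end Pool.Agent.Lib.E2
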