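import Pool.Agent.Lib.MP_10be03_gt.NH.Main

/-! The ring of integers of the `p`-th cyclotomic field is a Nahm ring; the realisation of Nahm
rings implies the statement `Final p`. -/

noncomputable section

namespace Pool.Agent.Lib.MP_10be03_gt.A

open Function Finset Pool.Agent.Lib.E2 RingTheory.Sequence Polynomial
open scoped TensorProduct

theorem tmul_one_mem {B : Type} [CommRing B] (I : Ideal B) (l : ℕ) (x : B) :
    x ⊗ₜ[ℤ] (1 : ℤ ⧸ Ideal.span {(l : ℤ)}) ∈ I • (⊤ : Submodule B _) ↔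
      x ∈ Ideal.span {(l : B)} ⊔ I := by
  constructor
  · intro h
    let J := Ideal.span {(l : B)} ⊔ I
    let Ψ := Algebra.TensorProduct.productMap (Ideal.Quotient.mk J).toIntAlgHom
      (Ideal.Quotient.lift (Ideal.span {(l : ℤ)}) (Int.castRingHom (B ⧸ J)) fun a ha => by
        obtain ⟨b, rfl⟩ := Ideal.mem_span_singleton.1 ha
        rw [map_mul, map_natCast, ← map_natCast (Ideal.Quotient.mk J),
          Ideal.Quotient.eq_zero_iff_mem.2 (Ideal.mem_sup_left (Ideal.mem_span_singleton_self _)),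
          zero_mul]).toIntAlgHom
    have k : ∀ n ∈ I • (⊤ : Submodule B (B ⊗[ℤ] (ℤ ⧸ Ideal.span {(l : ℤ)}))), Ψ n = 0 :=
      fun n hn => Submodule.smul_induction_on hn (fun a ha y hy => by
        clear hy
        induction y with
        | zero => rw [smul_zero, map_zero]
        | tmul b q =>
          rw [TensorProduct.smul_tmul', Algebra.TensorProduct.productMap_apply_tmul]
          exact mul_eq_zero_of_left (Ideal.Quotient.eq_zero_iff_mem.2
            (Ideal.mem_sup_right (I.mul_mem_right b ha))) _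
        | add y z hy hz => rw [smul_add, map_add, hy, hz, add_zero])
        fun y z hy hz => by rw [map_add, hy, hz, add_zero]
    have := k _ h
    rw [Algebra.TensorProduct.productMap_apply_tmul, map_one, mul_one] at this
    exact Ideal.Quotient.eq_zero_iff_mem.1 this
  · intro h
    obtain ⟨a, b, hb, rfl⟩ := Ideal.mem_span_singleton_sup.1 h
    have e : (l : ℤ) • (1 : ℤ ⧸ Ideal.span {(l : ℤ)}) = 0 := by
      rw [zsmul_one]
      exact Ideal.Quotient.eq_zero_iff_mem.2 (Ideal.mem_span_singleton_self (l : ℤ))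
    rw [TensorProduct.add_tmul, mul_comm, ← nsmul_eq_mul, ← natCast_zsmul, TensorProduct.smul_tmul,
      e, TensorProduct.tmul_zero, zero_add, ← mul_one b, ← smul_eq_mul, ← TensorProduct.smul_tmul']
    exact Submodule.smul_mem_smul hb trivial

theorem wreg_of_reg {r : ℕ} {u : ℕ → Lau r} {g : Fin r → Lau r} (h : ∀ c : Fin r, u c = g c)
    (hL : ∀ (Q : Type) [AddCommGroup Q], Reg u r (Lau r ⊗[ℤ] Q)) :
    IsWeaklyRegular (Lau r) (List.ofFn g) ∧
      ∀ l : ℕ, l.Prime → IsWeaklyRegular (Lau r) ((l : Lau r) :: List.ofFn g) := by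
  have k : ∀ l : ℕ, ∀ c < r, ∀ x, u c * x ∈ Ideal.span {(l : Lau r)} ⊔ ida u c →
      x ∈ Ideal.span {(l : Lau r)} ⊔ ida u c := fun l c hc x hx =>
    (tmul_one_mem _ l x).1 (hL _ c hc _ ((tmul_one_mem _ l _).2 hx))
  refine ⟨wreg_iff.2 fun i hi x => ?_, fun l hl => wreg_iff.2 fun i hi x => ?_⟩
  · rw [List.length_ofFn] at hi
    rw [ofList_take h hi.le, List.getElem_ofFn, ← h]
    simpa using k 0 i hi x
  · rcases i with _ | i
    · simp only [List.getElem_cons_zero, List.take_zero, Ideal.ofList_nil, Ideal.mem_bot,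
        ← nsmul_eq_mul]
      exact fun hx => (smul_eq_zero.1 hx).resolve_left hl.ne_zero
    · have hi' : i < r := by simpa using hi
      rw [List.take_succ_cons, Ideal.ofList_cons, ofList_take h hi'.le, List.getElem_cons_succ,
        List.getElem_ofFn, ← h]
      exact k l i hi' x

/-- The matrix of the cyclotomic system. -/
def cycK (r : ℕ) : Matrix (Fin r) (Fin r) ℤ := Matrix.of fun c d => Km c d

/-- The multiplicities of the cyclotomic system. -/
def cycM (r : ℕ) (S : Finset (Fin r)) : ℕ := if ∃ c : Fin r, (c : ℕ) ≠ 0 ∧ S = {c} then 1 else 0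

theorem cycK_symm (r : ℕ) : (cycK r).IsSymm := Matrix.IsSymm.ext fun c d => Km_symm d c

theorem ff_eq_nahm {r : ℕ} (c : Fin r) : ff (var r) c = nahmF (cycK r) (cycM r) c := by
  rw [ff, gg_var, nahmF, prod_eq_single {c}]
  · congr 1
    by_cases h : (c : ℕ) = 0
    · rw [if_pos h, cycM, if_neg, pow_zero]
      rintro ⟨d, hd, e⟩
      exact hd (singleton_injective e ▸ h)
    · rw [if_neg h, cycM, if_pos ⟨c, h, rfl⟩, pow_one, prod_singleton, var, eps_eq]
      rfl
  · intro S hS h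
    rw [cycM, if_neg, pow_zero]
    rintro ⟨d, -, rfl⟩
    exact h (by rw [mem_singleton.1 (mem_filter.1 hS).2])
  · simp

theorem cyc_wreg {t : ℕ} (hp : (t + 3).Prime) :
    IsWeaklyRegular (Laur (2 * t + 3)) (nahmSeq (cycK (2 * t + 3)) (cycM _)) ∧ ∀ l : ℕ, l.Prime →
      IsWeaklyRegular (Laur (2 * t + 3))
        ((l : Laur (2 * t + 3)) :: nahmSeq (cycK (2 * t + 3)) (cycM _)) :=
  wreg_of_reg (u := fun c => 1 - ff (var (2 * t + 3)) c) (fun c => by rw [ff_eq_nahm])
    (reg_lau hp)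

theorem cyc_equiv {t : ℕ} (hp : (t + 3).Prime) :
    ∃ e : NahmRing (cycK (2 * t + 3)) (cycM _) ≃+* Cyc t,
      e (Ideal.Quotient.mk _ (-vm (Pi.single ⟨1, by omega⟩ 1))) * AdjoinRoot.root _ = 1 := by
  obtain ⟨φ, θ, h1, -, h3, h4, h5, h6⟩ := structure_thm hp
  have hI : Ideal.ofList (nahmSeq (cycK (2 * t + 3)) (cycM _)) = RingHom.ker (θ.comp φ) :=
    (ofList_all (u := fun c => 1 - ff (var (2 * t + 3)) c) fun c => by rw [ff_eq_nahm]).trans
      h4.symm
  refine ⟨(Ideal.quotEquivOfEq hI).trans (RingHom.quotientKerEquivOfSurjective (h3.comp h1)), ?_⟩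
  have h7 : 1 - ff (var (2 * t + 3)) 0 ∈ RingHom.ker (θ.comp φ) :=
    h4.ge (Ideal.subset_span ⟨0, by simp, rfl⟩)
  rw [RingHom.mem_ker, ff_zero, map_sub, map_one, sub_eq_zero, map_neg, map_mul,
    RingHom.comp_apply, h5, h6] at h7
  rw [h7, ← eps_eq, mul_comm, ← mul_neg, ← map_neg]
  rfl

theorem final_of_realises {A ι : Type} [CommRing A] {u : ι → A} (h : Realises A u) (i : ι) {p : ℕ}
    (h1 : ∑ j ∈ range p, u i ^ j = 0) (b : Module.Basis (Fin (p - 1)) ℤ A)
    (hb : ∀ j, b j = u i ^ (j : ℕ)) : Final p := by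
  obtain ⟨hS, hKU, O, π, R, μ, φ, c, z, T, k1, k2, k3, k4, k5, k6⟩ := h
  refine ⟨hS, hKU, O, π, R, μ, φ, c, z i, T i, k1, k2, k3, k4, k5 i, fun a a' => ?_⟩
  obtain ⟨Θ, k7, k8⟩ := k6 a a'
  have k9 : ∀ (j : ℕ) x y, ((T i).pi a a')^[j] (Θ (x ⊗ₜ y)) = Θ ((u i ^ j * x) ⊗ₜ y) :=
    fun j x y => by
      induction j with
      | zero => simp
      | succ j ih => rw [iterate_succ_apply', ih, k8, ← mul_assoc, ← pow_succ']
  constructor
  · intro y
    obtain ⟨w, rfl⟩ := Θ.surjective y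
    induction w with
    | zero => simp [iterate_fixed (map_zero ((T i).pi a a'))]
    | tmul x y => simp only [k9, ← map_sum, ← TensorProduct.sum_tmul, ← sum_mul, h1]; simp
    | add x y hx hy =>
      simp only [map_add, iterate_map_add, sum_add_distrib, hx, hy, add_zero]
  · let E := (Finsupp.linearEquivFunOnFinite ℤ ((OSp.toS ⟨KUpre, hKU⟩).Pi a a')
      (Fin (p - 1))).symm ≪≫ₗ (TensorProduct.equivFinsuppOfBasisLeft b).symm
    convert Θ.bijective.comp E.bijective using 1
    funext y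
    simp only [E, comp_apply, LinearEquiv.trans_apply,
      TensorProduct.equivFinsuppOfBasisLeft_symm_apply, ← k7, k9, mul_one, ← map_sum]
    rw [Finsupp.sum_fintype _ _ (by simp)]
    simp [hb]

/-- The realisation of Nahm rings contains the statement for the `p`-th root of unity. -/
theorem final_of_nahm (h : ∀ (r : ℕ) (K : Matrix (Fin r) (Fin r) ℤ), K.IsSymm →
    ∀ m : Finset (Fin r) → ℕ, IsWeaklyRegular (Laur r) (nahmSeq K m) →
    (∀ l : ℕ, l.Prime → IsWeaklyRegular (Laur r) ((l : Laur r) :: nahmSeq K m)) →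
    Realises (NahmRing K m) fun c : Fin r => Ideal.Quotient.mk _ (-vm (Pi.single c 1)))
    (p : ℕ) (hp : p.Prime) (h2 : p ≠ 2) : Final p := by
  obtain ⟨t, rfl⟩ : ∃ t, p = t + 3 := ⟨p - 3, by have := hp.two_le; omega⟩
  obtain ⟨e, he⟩ := cyc_equiv hp
  set w := Ideal.Quotient.mk (Ideal.ofList (nahmSeq (cycK (2 * t + 3)) (cycM _)))
    (-vm (Pi.single ⟨1, by omega⟩ 1)) with hw
  have hu : IsUnit (e w ^ (t + 1)) := (IsUnit.of_mul_eq_one _ he).pow _
  have hpow : ∀ i j : ℕ, e w ^ (i + j) * AdjoinRoot.root _ ^ j = e w ^ i := fun i j => by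
    rw [pow_add, mul_assoc, ← mul_pow, he, one_pow, mul_one]
  let b := (AdjoinRoot.powerBasis' (br_monic (t + 2))).basis.reindex (finCongr (br_deg (t + 2)))
  have hb : ∀ i, b i = AdjoinRoot.root _ ^ (i : ℕ) := fun i => by
    simp only [b, Module.Basis.coe_reindex, PowerBasis.coe_basis, Function.comp]
    rfl
  refine final_of_realises (h _ _ (cycK_symm _) _ (cyc_wreg hp).1 (cyc_wreg hp).2) ⟨1, by omega⟩
    (e.injective ?_) (((b.reindex Fin.revPerm).map
      ((DistribMulAction.toLinearEquiv ℤ (Cyc t) hu.unit))).map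
        e.symm.toAddEquiv.toIntLinearEquiv) fun j => ?_
  · have h0 : e w ^ (t + 2) * ∑ i ∈ range (t + 3), (AdjoinRoot.root _ : Cyc t) ^ i = 0 :=
      mul_eq_zero_of_right _ cyc_root
    rw [map_zero, map_sum, ← h0, mul_sum, ← sum_range_reflect]
    refine sum_congr rfl fun j hj => ?_
    rw [map_pow, ← hw, ← hpow _ j]
    congr 2
    have := mem_range.1 hj
    omega
  · refine e.injective ?_
    rw [map_pow, ← hw, ← hpow j (Fin.rev j)]
    simp only [Module.Basis.map_apply, Module.Basis.coe_reindex, comp_apply, hb]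
    rw [show (j : ℕ) + (Fin.rev j : ℕ) = t + 1 by have := j.2; rw [Fin.val_rev]; omega]
    exact e.apply_symm_apply _

end Pool.Agent.Lib.MP_10be03_gt.A
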