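import Pool.Agent.Lib.MP_10be03_gt.AOps

/-! A sequence that is weakly regular over the integers and modulo every prime is weakly regular
on the tensor product with any abelian group. -/

namespace Pool.Agent.Lib.MP_10be03_gt.A

open TensorProduct RingTheory.Sequence

variable {B : Type} [CommRing B] {u : ℕ → B} {r : ℕ}

theorem ofList_take {g : Fin r → B} (h : ∀ c : Fin r, u c = g c) {c : ℕ} (hc : c ≤ r) :
    Ideal.ofList ((List.ofFn g).take c) = ida u c := by
  refine congrArg Ideal.span (Set.ext fun x => ?_)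
  simp only [Set.mem_ofPred_eq, List.mem_take_iff_getElem, List.length_ofFn, min_eq_left hc,
    List.getElem_ofFn, Set.mem_image, Set.mem_Iio]
  exact ⟨fun ⟨j, hj, e⟩ => ⟨j, hj, (h ⟨j, by omega⟩).trans e⟩,
    fun ⟨j, hj, e⟩ => ⟨j, hj, (h ⟨j, by omega⟩).symm.trans e⟩⟩

theorem ofList_all {g : Fin r → B} (h : ∀ c : Fin r, u c = g c) :
    Ideal.ofList (List.ofFn g) = ida u r := by
  rw [← ofList_take h le_rfl, List.take_of_length_le (by simp)]

theorem wreg_iff {l : List B} : IsWeaklyRegular B l ↔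
    ∀ i (h : i < l.length) x, l[i] * x ∈ Ideal.ofList (l.take i) → x ∈ Ideal.ofList (l.take i) := by
  simp only [isWeaklyRegular_iff, isSMulRegular_quotient_iff_mem_of_smul_mem, smul_eq_mul,
    Ideal.mul_top]

theorem mem_ida_succ' {c : ℕ} {x : B} : x ∈ ida u (c + 1) ↔ ∃ w, x - u c * w ∈ ida u c := by
  simpa using mem_ida_succ (u := u) (c := c) (n := x)

theorem reg_tensor (ht : ∀ l : ℕ, l.Prime → ∀ x : B, l * x = 0 → x = 0)
    (h0 : ∀ c < r, ∀ x, u c * x ∈ ida u c → x ∈ ida u c)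
    (h1 : ∀ l : ℕ, l.Prime → ∀ c < r, ∀ x, u c * x ∈ Ideal.span {(l : B)} ⊔ ida u c →
      x ∈ Ideal.span {(l : B)} ⊔ ida u c) (Q : Type) [AddCommGroup Q] :
    Reg u r (B ⊗[ℤ] Q) := by
  have tf : ∀ l : ℕ, l.Prime → ∀ c ≤ r, ∀ x : B, l * x ∈ ida u c → x ∈ ida u c := fun l hl c => by
    induction c with
    | zero => simpa [ida] using ht l hl
    | succ c ih =>
      intro hc x hx
      obtain ⟨w, hw⟩ := mem_ida_succ'.1 hx
      obtain ⟨a, b, hb, rfl⟩ := Ideal.mem_span_singleton_sup.1 (h1 l hl c hc w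
        (Ideal.mem_span_singleton_sup.2 ⟨x, _, neg_mem hw, by ring⟩))
      refine mem_ida_succ'.2 ⟨a, ih (by omega) _ ?_⟩
      have := add_mem hw (Ideal.mul_mem_left _ (u c) hb)
      convert this using 1
      ring
  have tf' : ∀ c ≤ r, ∀ n : ℕ, n ≠ 0 → ∀ x : B, n * x ∈ ida u c → x ∈ ida u c := fun c hc n => by
    induction n using induction_on_primes with
    | zero => exact fun h => absurd rfl h
    | one => simp
    | prime_mul p a hp ih =>
      intro h x hx
      rw [Nat.cast_mul, mul_assoc] at hx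
      exact ih (right_ne_zero_of_mul h) x (tf p hp c hc _ hx)
  intro c hc n hn
  let φ := Ideal.Quotient.mk (ida u c)
  have hle : ida u c ≤ ida u (c + 1) := by rw [ida_succ]; exact le_sup_right
  let θ := Ideal.Quotient.factor hle
  have hs : Function.Surjective φ := Ideal.Quotient.mk_surjective
  rw [← Ideal.mk_ker (I := ida u c), ← tq_ker hs] at hn ⊢
  rw [tq_smul] at hn
  have : IsAddTorsionFree (B ⧸ ida u (c + 1)) := ⟨fun k hk x y h => by
    obtain ⟨x, rfl⟩ := Ideal.Quotient.mk_surjective x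
    obtain ⟨y, rfl⟩ := Ideal.Quotient.mk_surjective y
    refine Ideal.Quotient.eq.2 (tf' _ hc k hk _ ?_)
    rw [mul_sub, ← Ideal.Quotient.eq]
    simpa using h⟩
  have inj := LinearMap.lTensor_injective_of_exact_of_flat θ.toAddMonoidHom.toIntLinearMap
    (Ideal.Quotient.factor_surjective hle) (LinearMap.mulLeft ℤ (φ (u c)))
    ((injective_iff_map_eq_zero _).2 fun y hy => ?_) (fun y => ⟨fun hy => ?_, ?_⟩) Q
  · rw [LinearMap.lTensor_inj_iff_rTensor_inj] at inj
    refine inj (Eq.trans ?_ (hn.trans (map_zero _).symm))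
    generalize tq Q φ n = z
    induction z with
    | zero => simp
    | tmul a q => rfl
    | add x y hx hy => rw [map_add, hx, hy, smul_add]
  · obtain ⟨a, rfl⟩ := hs y
    exact Ideal.Quotient.eq_zero_iff_mem.2 (h0 c hc a (Ideal.Quotient.eq_zero_iff_mem.1 hy))
  · obtain ⟨a, rfl⟩ := hs y
    obtain ⟨w, hw⟩ := mem_ida_succ'.1 (Ideal.Quotient.eq_zero_iff_mem.1 hy)
    exact ⟨φ w, (Ideal.Quotient.eq.2 hw).symm⟩
  · rintro ⟨y, rfl⟩
    obtain ⟨a, rfl⟩ := hs y
    exact Ideal.Quotient.eq_zero_iff_mem.2 (mem_ida_succ'.2 ⟨a, by simp⟩)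

theorem reg_of_wreg {g : Fin r → B} (h : ∀ c : Fin r, u c = g c)
    (h0 : IsWeaklyRegular B (List.ofFn g))
    (h1 : ∀ l : ℕ, l.Prime → IsWeaklyRegular B ((l : B) :: List.ofFn g)) (Q : Type)
    [AddCommGroup Q] : Reg u r (B ⊗[ℤ] Q) := by
  refine reg_tensor (fun l hl x hx => ?_) (fun c hc x => ?_) (fun l hl c hc x => ?_) Q
  · simpa using wreg_iff.1 (h1 l hl) 0 (by simp) x (by simpa using hx)
  · have := wreg_iff.1 h0 c (by simpa using hc) x
    rwa [ofList_take h hc.le, List.getElem_ofFn, ← h] at this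
  · have := wreg_iff.1 (h1 l hl) (c + 1) (by simpa using hc) x
    rwa [List.take_succ_cons, Ideal.ofList_cons, ofList_take h hc.le, List.getElem_cons_succ,
      List.getElem_ofFn, ← h] at this

end Pool.Agent.Lib.MP_10be03_gt.A
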