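import Pool.Agent.Lib.MP_10be03_gt.A
import Pool.Agent.Lib.MP_10be03_gt.NH.Def

/-! The cellular complex of a general system of species, and the species of a Nahm system. -/

noncomputable section

namespace Pool.Agent.Lib.MP_10be03_gt.A

open Function Finset Pool.Agent.Lib.E2
open scoped TensorProduct

variable {r : ℕ}

theorem unit_chOf {σ : Type} [Fintype σ] {pos : σ → Finset (Fin r)} {tb : σ → Ty}
    (h0 : ∀ a, tb a ≠ .free) (n : Fin r → ℕ) : IsUnit (chOf pos tb n) := by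
  obtain ⟨N, hN⟩ := a_chOf_eq (pos := pos) h0 n
  exact hN ▸ Units.isUnit _

theorem sys_gen {σ : Type} [Fintype σ] {pos : σ → Finset (Fin r)} {ta tb : σ → Ty}
    {f : ℕ → Lau r} (h0 : ∀ a, tb a ≠ .free)
    (ha : ∀ n, chOf pos ta n = act f n * chOf pos tb n)
    (h1 : ∀ c, ∃ a, pos a = {c} ∧ tb a = .vac) (h2 : ∀ c, ∃ a, pos a = {c} ∧ tb a = .top)
    {Q : Type} [AddCommGroup Q] (hL : Reg (fun c => 1 - f c) r (Lau r ⊗[ℤ] Q))
    (G : (Fin r → ℕ) → Type) [∀ n, AddCommGroup (G n)] (χ : ∀ n, G n →+ Lau r ⊗[ℤ] Q)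
    (hi : ∀ n, Injective (χ n))
    (hr : ∀ n, (χ n).range = AddSubgroup.closure
      {z | ∃ w ∈ wts (wtOf pos) (nuOf pos n), ∃ y, z = mono w ⊗ₜ[ℤ] y})
    (g : ∀ m (i : Fin (m + 2)) (δ : Idx (Fin r) (m + 1)), G δ.1 → G (δ.pull i).1)
    (hg : ∀ m i δ x, χ _ (g m i δ x) =
      (chOf pos ta (δ.act i).1 * chOf pos tb (δ.act i).2) • χ _ x)
    [∀ m, DecidableEq (Idx (Fin r) m)]
    (d : ∀ m, (Π₀ δ : Idx (Fin r) (m + 1), G δ.1) →+ Π₀ δ : Idx (Fin r) m, G δ.1)
    (hd : ∀ m δ x, d m (DFinsupp.single δ x) = ∑ i : Fin (m + 2),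
      (-1 : ℤ) ^ (i : ℕ) • DFinsupp.single (δ.pull i) (g m i δ x)) :
    (∀ m, Exact (d (m + 1)) (d m)) ∧ ∃ s : (Π₀ δ : Idx (Fin r) 0, G δ.1) →+ Lau r ⊗[ℤ] Q,
      (∀ δ x, chOf pos tb δ.1 • s (DFinsupp.single δ x) = χ _ x) ∧ Surjective s ∧
      ∀ c, c ∈ (d 0).range ↔ s c ∈ ida (fun c => 1 - f c) r • (⊤ : Submodule (Lau r) _) := by
  choose N hN using a_chOf_eq (pos := pos) h0
  obtain ⟨u, hu, hu'⟩ : ∃ u : (Fin r → ℕ) → (Lau r)ˣ,
      (∀ n, chOf pos tb n = u n) ∧ ∀ n, u n = (-1) ^ N n * mon (∑ a,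
        (if tb a = .top then nuOf pos n a else 0) • wtOf pos a) := ⟨_, hN, fun _ => rfl⟩
  have hadd : ∀ n n', u (n + n') = u n * u n' := fun n n' =>
    Units.ext (by rw [Units.val_mul, ← hu, ← hu, ← hu, a_chOf_add])
  let χ' : ∀ n, G n →+ Lau r ⊗[ℤ] Q := fun n =>
    (DistribSMul.toAddMonoidHom _ (((u n)⁻¹ : (Lau r)ˣ) : Lau r)).comp (χ n)
  have hχ : ∀ n x, χ' n x = (((u n)⁻¹ : (Lau r)ˣ) : Lau r) • χ n x := fun _ _ => rfl
  have hex : ∀ H : AddSubgroup (Lau r ⊗[ℤ] Q), (∀ n x, χ' n x ∈ H) → ∀ z, z ∈ H := fun H hH z => by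
    induction z using lau_ind with
    | h0 => exact zero_mem _
    | h2 x y hx hy => exact add_mem hx hy
    | h1 w q =>
      obtain ⟨n, hn⟩ := a_mem_wts h1 h2 w
      obtain ⟨x, hx⟩ := (hr n).ge (AddSubgroup.subset_closure ⟨_, hn, q, rfl⟩)
      have := hH n x
      rw [hχ, hx, hu', mul_inv, Units.val_mul, mul_smul, ← mon_neg,
        show ∀ w, mono w = (mon w : Lau r) from fun _ => rfl, mon_smul,
        neg_add_cancel_left] at this
      rcases neg_one_pow_eq_or (Lau r)ˣ (N n) with e | e <;> simpa [e] using this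
  obtain ⟨k1, s, k2, k3⟩ := gr_final hL G χ'
    (fun n x y h => hi n ((Units.isUnit (u n)⁻¹).smul_left_cancel.1 h)) hex
    g (fun m i δ x => by
      rw [hχ, hχ, hg, ha, hu, hu, smul_smul, smul_smul]
      congr 1
      change ((u (δ.1 + (δ.act i).1 + (δ.act i).2))⁻¹ : (Lau r)ˣ).1 * _ = _
      rw [hadd, hadd, Units.inv_mul_eq_iff_eq_mul, Units.val_mul, Units.val_mul]
      linear_combination (-(act f (δ.act i).1 * u (δ.act i).1 *
        u (δ.act i).2)) * (u δ.1).mul_inv) d hd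
  refine ⟨k1, s, fun δ x => ?_, fun z => hex s.range (fun n x => ⟨_, k2 (n, 0) x⟩) z, k3⟩
  rw [k2, hχ, hu, smul_smul, Units.mul_inv, one_smul]

/-- The exponents of the pair species. -/
def pairE (K : Matrix (Fin r) (Fin r) ℤ) (p : Fin r × Fin r) : ℤ :=
  if p.1 < p.2 then K p.1 p.2 else if p.1 = p.2 then 2 * K p.1 p.1 - ∑ d, K p.1 d else 0

theorem sum_pairE {K : Matrix (Fin r) (Fin r) ℤ} (hK : K.IsSymm) (c d : Fin r) :
    ∑ p : Fin r × Fin r, (if c ∈ ({p.1, p.2} : Finset (Fin r)) ∧ d ∈ ({p.1, p.2} : Finset (Fin r))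
      then pairE K p else 0) = K c d := by
  have hs : ∀ x y, x ≠ y → pairE K (x, y) + pairE K (y, x) = K x y := fun x y h => by
    rcases lt_or_gt_of_ne h with h' | h'
    · simp [pairE, h', h'.not_gt, h.symm]
    · simp [pairE, h', h'.not_gt, h, hK.apply x y]
  by_cases h : c = d
  · subst h
    have e : ∀ p : Fin r × Fin r, (if c ∈ ({p.1, p.2} : Finset (Fin r)) ∧
        c ∈ ({p.1, p.2} : Finset (Fin r)) then pairE K p else 0) =
        (if c = p.1 then pairE K p else 0) + (if c = p.2 then pairE K p else 0) -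
          if (c, c) = p then pairE K p else 0 := fun p => by
      by_cases h1 : c = p.1 <;> by_cases h2 : c = p.2 <;> simp [h1, h2, Prod.ext_iff]
    have e1 : ∑ p : Fin r × Fin r, (if c = p.1 then pairE K p else 0) = ∑ y, pairE K (c, y) := by
      rw [Fintype.sum_prod_type, sum_comm]
      simp
    have e2 : ∑ p : Fin r × Fin r, (if c = p.2 then pairE K p else 0) = ∑ y, pairE K (y, c) := by
      rw [Fintype.sum_prod_type]
      simp
    simp only [e, sum_sub_distrib, sum_add_distrib, sum_ite_eq, mem_univ, if_true, e1, e2]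
    rw [← sum_add_distrib, ← add_sum_erase _ _ (mem_univ c),
      sum_congr rfl fun y hy => hs c y (ne_of_mem_erase hy).symm, sum_erase_eq_sub (mem_univ c)]
    simp only [pairE, lt_self_iff_false, if_false, if_true]
    ring
  · rw [sum_eq_add (c, d) (d, c) (by simp [h]) (fun p _ hp => if_neg ?_) (by simp) (by simp)]
    · simpa using hs c d h
    · simp only [mem_insert, mem_singleton, ne_eq, Prod.ext_iff] at hp ⊢
      rintro ⟨h1 | h1, h2 | h2⟩
      exacts [h (h1.trans h2.symm), hp.1 ⟨h1.symm, h2.symm⟩, hp.2 ⟨h2.symm, h1.symm⟩,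
        h (h1.trans h2.symm)]

/-- The species of a Nahm system. -/
abbrev NSp (K : Matrix (Fin r) (Fin r) ℤ) (m : Finset (Fin r) → ℕ) : Type :=
  (Σ p : Fin r × Fin r, Fin (pairE K p).natAbs) ⊕ (Σ S : Finset (Fin r), Fin (m S)) ⊕
    Fin r ⊕ Fin r

variable {K : Matrix (Fin r) (Fin r) ℤ} {m : Finset (Fin r) → ℕ}

/-- The colours of a species. -/
def nPos : NSp K m → Finset (Fin r)
  | .inl p => {p.1.1, p.1.2}
  | .inr (.inl S) => S.1
  | .inr (.inr (.inl c)) => {c}
  | .inr (.inr (.inr c)) => {c}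

/-- The first types. -/
def nA : NSp K m → Ty
  | .inl p => tyA (pairE K p.1).sign
  | .inr (.inl _) => .free
  | .inr (.inr (.inl _)) => .vac
  | .inr (.inr (.inr _)) => .top

/-- The second types. -/
def nB : NSp K m → Ty
  | .inl p => tyB (pairE K p.1).sign
  | .inr (.inl _) => .vac
  | .inr (.inr (.inl _)) => .vac
  | .inr (.inr (.inr _)) => .top

/-- The ratio of the two characters. -/
def nR : NSp K m → Lau r
  | .inl p => ((-mon (wtOf id ({p.1.1, p.1.2} : Finset (Fin r)))) ^ (pairE K p.1).sign : (Lau r)ˣ)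
  | .inr (.inl S) => 1 - mono (wtOf id S.1)
  | .inr (.inr _) => 1

theorem ch_nA (a : NSp K m) : (nA a).ch (wtOf nPos a) = nR a * (nB a).ch (wtOf nPos a) := by
  rcases a with p | S | c | c
  · exact ch_tyA (by rcases Int.sign_trichotomy (pairE K p.1) with h | h | h <;> simp [h]) _
  · exact (mul_one _).symm
  · exact (one_mul _).symm
  · exact (one_mul _).symm

theorem mono_wt (S : Finset (Fin r)) : mono (wtOf id S) = ∏ d ∈ S, vm (Pi.single d 1) := by
  have : ∀ w, vm w = (mon w : Lau r) := fun _ => rfl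
  simp only [this, ← Units.coe_prod, ← mon_sum]
  refine congrArg (fun w : Fin r → ℤ => (mon w : Lau r)) (funext fun c => ?_)
  simp [wtOf, Finset.sum_apply, Pi.single_apply]

theorem nahm_ratio (hK : K.IsSymm) (c : Fin r) :
    (∏ a : NSp K m, if c ∈ nPos a then nR a else 1) = nahmF K m c := by
  let e : Fin r × Fin r → ℤ := fun p => if c ∈ ({p.1, p.2} : Finset (Fin r)) then pairE K p else 0
  have h1 : ∀ p : Fin r × Fin r, (∏ i : Fin (pairE K p).natAbs,
      if c ∈ nPos (.inl ⟨p, i⟩ : NSp K m) then nR (.inl ⟨p, i⟩ : NSp K m) else 1) =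
      (((-1) ^ e p * mon (e p • wtOf id ({p.1, p.2} : Finset (Fin r))) : (Lau r)ˣ) : Lau r) :=
    fun p => by
      change (∏ _i : Fin (pairE K p).natAbs, if c ∈ ({p.1, p.2} : Finset (Fin r)) then
        (((-mon (wtOf id ({p.1, p.2} : Finset (Fin r)))) ^ (pairE K p).sign : (Lau r)ˣ) : Lau r)
        else 1) = _
      simp only [prod_const, card_univ, Fintype.card_fin, e]
      split_ifs
      · rw [← Units.val_pow_eq_pow_val, ← zpow_natCast, ← zpow_mul, Int.sign_mul_natAbs,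
          mon_zsmul, ← mul_zpow, neg_one_mul]
      · simp [mon_zero]
  have h2 : ∑ p : Fin r × Fin r, e p • wtOf id ({p.1, p.2} : Finset (Fin r)) = K c :=
    funext fun d => by
      rw [← sum_pairE hK c d, Finset.sum_apply]
      refine sum_congr rfl fun p _ => ?_
      simp only [e, wtOf, id, Pi.smul_apply, smul_eq_mul, ite_and]
      split_ifs <;> simp
  have h3 : ∑ p, e p = K c c := by simpa only [and_self] using sum_pairE hK c c
  have h4 : ∏ p, (-1 : (Lau r)ˣ) ^ e p = (-1) ^ (K c c).natAbs := by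
    have k : ∀ s : Finset (Fin r × Fin r), ∏ p ∈ s, (-1 : (Lau r)ˣ) ^ e p = (-1) ^ ∑ p ∈ s, e p :=
      fun s => by
        induction s using Finset.induction_on with
        | empty => simp
        | insert a s ha ih => rw [prod_insert ha, sum_insert ha, zpow_add, ih]
    rw [k, h3]
    rcases Int.natAbs_eq (K c c) with h | h
    · rw [← zpow_natCast, ← h]
    · conv_lhs => rw [h, zpow_neg, ← inv_zpow, inv_neg, inv_one, zpow_natCast]
  have h5 : ∀ S : Finset (Fin r), (∏ i : Fin (m S), if c ∈ nPos (.inr (.inl ⟨S, i⟩) : NSp K m)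
      then nR (.inr (.inl ⟨S, i⟩) : NSp K m) else 1) =
      if c ∈ S then (1 - ∏ d ∈ S, vm (Pi.single d 1)) ^ m S else 1 := fun S => by
    change (∏ _i : Fin (m S), if c ∈ S then 1 - mono (wtOf id S) else 1) = _
    simp only [prod_const, card_univ, Fintype.card_fin, ite_pow, one_pow, mono_wt]
  have h6 : (∏ a : Fin r ⊕ Fin r, if c ∈ nPos (.inr (.inr a) : NSp K m)
      then nR (.inr (.inr a) : NSp K m) else 1) = 1 := prod_eq_one fun a _ => ite_self _
  rw [Fintype.prod_sum_type, Fintype.prod_sum_type, h6, Fintype.prod_sigma, Fintype.prod_sigma,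
    prod_congr rfl fun p _ => h1 p, prod_congr rfl fun S _ => h5 S, ← Units.coe_prod,
    prod_mul_distrib, h4, ← mon_sum, h2, nahmF, prod_filter, mul_one, Units.val_mul,
    Units.val_pow_eq_pow_val]
  rfl

theorem exists_nahm (hK : K.IsSymm) (m : Finset (Fin r) → ℕ) {f : ℕ → Lau r}
    (hf : ∀ c : Fin r, f c = nahmF K m c) : ∃ (σ : Type) (_ : Fintype σ)
    (pos : σ → Finset (Fin r)) (ta tb : σ → Ty) (tz : Fin r → σ → Ty), (∀ a, tb a ≠ Ty.free) ∧
    (∀ n, chOf pos ta n = act f n * chOf pos tb n) ∧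
    (∀ c, ∃ a, pos a = {c} ∧ tb a = Ty.vac) ∧ (∀ c, ∃ a, pos a = {c} ∧ tb a = Ty.top) ∧
    ∀ c, chOf pos (tz c) (Pi.single c 1) =
      -vm (Pi.single c 1) * chOf pos tb (Pi.single c 1) := by
  classical
  refine ⟨NSp K m, inferInstance, nPos, nA, nB,
    fun c a => if a = .inr (.inr (.inl c)) then .top else nB a, fun a => ?_, fun n => ?_,
    fun c => ⟨.inr (.inr (.inl c)), rfl, rfl⟩, fun c => ⟨.inr (.inr (.inr c)), rfl, rfl⟩,
    fun c => ?_⟩
  · rcases a with p | S | c | c <;> simp only [nB, tyB] <;> first | (split_ifs <;> simp) | simp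
  · rw [chOf_eq_col, chOf_eq_col, act, ← prod_mul_distrib]
    exact prod_congr rfl fun c _ => by rw [colCh_ratio nPos nR ch_nA, nahm_ratio hK, hf, mul_pow]
  · have h1 : ∀ ty : NSp K m → Ty, chOf nPos ty (Pi.single c 1) = colCh nPos ty c := fun ty => by
      rw [chOf_eq_col, prod_eq_single c (fun d _ hd => by simp [hd]) (by simp)]
      simp
    rw [h1, h1, colCh_ratio nPos (ty' := nB)
      (fun a => if a = .inr (.inr (.inl c)) then -vm (Pi.single c 1) else 1)]
    · congr 1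
      rw [prod_eq_single (.inr (.inr (.inl c))) (fun a _ ha => by simp [ha]) (by simp)]
      simp [nPos]
    · intro a
      dsimp only
      split_ifs with h
      · subst h
        refine (congrArg (fun w => -mono w) (funext fun d => ?_)).trans (mul_one _).symm
        simp [wtOf, nPos, Pi.single_apply]
      · exact (one_mul _).symm

end Pool.Agent.Lib.MP_10be03_gt.A
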