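import Pool.Agent.Lib.MP_10be03_gt.Z
import Pool.Agent.Lib.MP_10be03_gt.NH.Sys
import Pool.Agent.Lib.MP_10be03_gt.NH.Reg

/-! The realisation of Nahm rings. -/

namespace Pool.Agent.Lib.E2

open Function Pool.Agent.Lib.MP_10be03_gt.A RingTheory.Sequence
open scoped TensorProduct

theorem equiv_of_surj {C P P' : Type} [AddCommGroup C] [AddCommGroup P] [AddCommGroup P']
    {v : C →+ P} {w : C →+ P'} (hv : Surjective v) (hw : Surjective w)
    (h : ∀ c, v c = 0 ↔ w c = 0) : ∃ e : P ≃+ P', ∀ c, e (v c) = w c := by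
  refine ⟨(QuotientAddGroup.quotientKerEquivOfSurjective v hv).symm.trans
    ((QuotientAddGroup.quotientAddEquivOfEq (AddSubgroup.ext h)).trans
      (QuotientAddGroup.quotientKerEquivOfSurjective w hw)), fun c => ?_⟩
  have e : (QuotientAddGroup.quotientKerEquivOfSurjective v hv).symm (v c) =
      QuotientAddGroup.mk c := (AddEquiv.symm_apply_eq _).2 rfl
  rw [AddEquiv.trans_apply, e]
  rfl

theorem nAlg {B A Q P C J ι : Type} [CommRing B] [CommRing A] {ψ : B →+* A} (hψ : Surjective ψ)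
    [AddCommGroup Q] [AddCommGroup P] [AddCommGroup C] [DecidableEq J] {G : J → Type}
    [∀ j, AddCommGroup (G j)] {d : C →+ Π₀ j, G j} {v : (Π₀ j, G j) →+ P} (hv : Surjective v)
    (he : Exact d v) {s : (Π₀ j, G j) →+ B ⊗[ℤ] Q} (hs : Surjective s)
    (hk : ∀ c, c ∈ d.range ↔ s c ∈ RingHom.ker ψ • (⊤ : Submodule B (B ⊗[ℤ] Q))) (η : Q → P)
    (hη : ∀ y, ∃ c, s c = 1 ⊗ₜ y ∧ v c = η y) (T : ι → P →+ P) (u : ι → B)
    (hT : ∀ i j x, ∃ c, s c = u i • s (DFinsupp.single j x) ∧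
      v c = T i (v (DFinsupp.single j x))) :
    ∃ Θ : A ⊗[ℤ] Q ≃+ P, (∀ y, Θ (1 ⊗ₜ y) = η y) ∧
      ∀ i x y, T i (Θ (x ⊗ₜ y)) = Θ ((ψ (u i) * x) ⊗ₜ y) := by
  obtain ⟨Θ, hΘ⟩ := equiv_of_surj (v := (tq Q ψ).toAddMonoidHom.comp s) (w := v)
    ((tq_surj hψ).comp hs) hv fun x => ((tq_ker hψ _).trans (hk x).symm).trans (he x).symm
  replace hΘ : ∀ x, Θ (tq Q ψ (s x)) = v x := hΘ
  refine ⟨Θ, fun y => ?_, fun i x y => ?_⟩
  · obtain ⟨c, h1, h2⟩ := hη y
    rw [← h2, ← hΘ, h1, tq_tmul, map_one]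
  · suffices h : ∀ w, T i (v w) = Θ (tq Q ψ (u i • s w)) by
      obtain ⟨x, rfl⟩ := hψ x
      obtain ⟨w, hw⟩ := hs (x ⊗ₜ y)
      rw [← tq_tmul, ← hw, hΘ, h, hw, TensorProduct.smul_tmul', tq_tmul, smul_eq_mul, map_mul]
    intro w
    induction w using DFinsupp.induction with
    | h0 => simp
    | ha j x w _ _ ih =>
      obtain ⟨c, h1, h2⟩ := hT i j x
      simp only [map_add, smul_add, ih]
      rw [← h1, hΘ, h2]

theorem realises_of (hH : CellMain) (hG : GStmt) (hKU : KUStmt) (hK : KStmt) (hD : DStmt)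
    {r : ℕ} {σ : Type} [Fintype σ] {pos : σ → Finset (Fin r)} {ta tb : σ → Ty} {f : ℕ → Lau r}
    {ι : Type} {tz : ι → σ → Ty} {nz : ι → Fin r → ℕ} {u : ι → Lau r} (h0 : ∀ a, tb a ≠ .free)
    (ha : ∀ n, chOf pos ta n = MP_10be03_gt.A.act f n * chOf pos tb n)
    (h1 : ∀ c, ∃ a, pos a = {c} ∧ tb a = .vac) (h2 : ∀ c, ∃ a, pos a = {c} ∧ tb a = .top)
    (hz : ∀ i, chOf pos (tz i) (nz i) = u i * chOf pos tb (nz i))
    (hL : ∀ (Q : Type) [AddCommGroup Q], Reg (fun c => 1 - f c) r (Lau r ⊗[ℤ] Q))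
    {A : Type} [CommRing A] (ψ : Lau r →+* A) (hψ : Surjective ψ)
    (hk : RingHom.ker ψ = ida (fun c => 1 - f c) r) : Realises A fun i => ψ (u i) := by
  obtain ⟨O, π, hE, hD⟩ := hD
  obtain ⟨D⟩ := hD pos
  obtain ⟨K⟩ := hK (wtOf pos) hKU.2
  obtain ⟨hO, μ, hμ, hv⟩ := hG O (N.alg D K ta tb)
  replace hv : ∀ {S : Type} [Finite S] {n : S → ℕ} {M : ℕ} (c : O.O S) (φ : Dec n M)
      (x : ∀ s, N.X D K (n s) 0), μ.ap c φ (fun s => N.vt D K ta tb (x s)) =
        N.vt D K ta tb (N.mu 0 c φ x) := hv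
  obtain ⟨c⟩ := N.nonempty_two hE
  choose T hT using fun i => @N.exists_left O ⟨_, hO⟩ (N.cg_Re (N.alg D K ta tb)) μ hμ c
    (N.vt D K ta tb (N.root D K (tz i) (nz i)))
  refine ⟨hKU.1, hKU.2, O, π, ⟨_, hO⟩, μ, N.unit D K ta tb hO, c,
    fun i => N.vt D K ta tb (N.root D K (tz i) (nz i)), T, hE, hμ,
    fun c₀ d x => ?_, fun c' n M d x => ?_, fun i M d x hd hx => ?_, fun a b => ?_⟩
  · rw [show x = fun s => N.vt D K ta tb (s.elim) from funext fun s => s.elim, hv]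
    exact congrArg (N.vt D K ta tb) (N.unit0_eq D K c₀ d _ (fun s => s.elim) _ fun β => by
      rw [show (fun s : Empty => (s.elim : N.X D K s.elim 0).1.2) = fun s => ⟨s.elim, s.elim⟩ from
        funext fun s => s.elim]
      exact congrArg (Sigma.mk 0) (K.iota_one β d _))
  · exact (congrArg (N.vt D K ta tb) (N.unit0_eq D K c' d (fun b => N.unit0 D K _ (x b))
      (fun _ => D.deg_std 0 0) _ fun β => congrArg (Sigma.mk 0) (K.iota_mul β d x))).trans
      (hv _ _ _).symm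
  · refine (hT _ _ _).trans ?_
    rw [N.dec_eq d hd]
    exact congrArg _ (funext fun | true => hx.symm | false => rfl)
  let C := N.cells D K ta tb
  have hs := fun a b => @sys_gen r σ _ pos ta tb f h0 ha h1 h2 _ _ (hL _)
    (fun n => (K.Y (nuOf pos n)).toS.Pi a b) _ (fun n => K.χ _ a b)
    (fun n => K.χ_inj _ a b) (fun n => K.χ_range _ a b) (fun m i δ => (C.g m i δ).pi a b)
    (fun m i δ => N.chi_face D K ta tb i δ a b) (fun _ _ _ => Classical.propDecidable _)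
    (C.d a b) (zD_single C a b)
  obtain ⟨h3, h4⟩ := hH _ C (fun a b => (hs a b).1) a b
  obtain ⟨s, k1, k2, k3⟩ := (hs a b).2
  rw [← hk] at k3
  refine @nAlg _ _ _ _ _ (Idx (Fin r) 0) _ _ _ ψ hψ _ _ _ (fun _ _ => Classical.propDecidable _)
    (fun δ => (K.Y (nuOf pos δ.1)).toS.Pi a b) _ (C.d a b 0) (C.aug a b) h3 h4 s k2 k3 _
    (fun y => ?_) (fun i => (T i).pi a b) u fun i δ x => ?_
  · obtain ⟨x, h5, h6⟩ := N.exists_base D K ta tb hO (0, 0) rfl a b y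
    have := k1 (0, 0) x
    rw [h5, show chOf pos tb (0, (0 : Fin 0 → _)).1 = 1 by simp [chOf, nuOf], one_smul] at this
    exact ⟨_, this, (zAug_single C a b _ _).trans h6.symm⟩
  · obtain ⟨x', h7, h8⟩ := N.exists_step D K ta tb (tz i) (nz i) c (T i)
      (fun n q => (hT i n _).trans (by
        rw [← hv c (N.dec n) (N.pair (F := fun n => N.X D K n 0) (N.root D K (tz i) (nz i)) q)]
        exact congrArg _ (funext fun | true => rfl | false => rfl)))
      δ (nz i + δ.1, 0) rfl a b x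
    refine ⟨_, (unit_chOf (pos := pos) h0 (nz i + δ.1)).smul_left_cancel.1
      ((k1 (nz i + δ.1, 0) x').trans ?_), ((zAug_single C a b _ _).trans h8.symm).trans
      (congrArg _ (zAug_single C a b δ x).symm)⟩
    rw [h7, ← k1 δ x, hz, a_chOf_add, smul_smul, smul_smul]
    congr 1
    ring

theorem nahm_of (hH : CellMain) (hG : GStmt) (hKU : KUStmt) (hK : KStmt) (hD : DStmt)
    (r : ℕ) (K : Matrix (Fin r) (Fin r) ℤ) (hs : K.IsSymm) (m : Finset (Fin r) → ℕ)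
    (h0 : IsWeaklyRegular (Laur r) (nahmSeq K m))
    (h1 : ∀ l : ℕ, l.Prime → IsWeaklyRegular (Laur r) ((l : Laur r) :: nahmSeq K m)) :
    Realises (NahmRing K m) fun c : Fin r => Ideal.Quotient.mk _ (-vm (Pi.single c 1)) := by
  let f : ℕ → Lau r := fun n => if h : n < r then nahmF K m ⟨n, h⟩ else 0
  have hf : ∀ c : Fin r, f c = nahmF K m c := fun c => dif_pos c.2
  have hf' : ∀ c : Fin r, 1 - f c = 1 - nahmF K m c := fun c => by rw [hf]
  obtain ⟨σ, _, pos, ta, tb, tz, k0, ka, k1, k2, kz⟩ := exists_nahm hs m hf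
  exact realises_of hH hG hKU hK hD k0 ka k1 k2 kz
    (fun Q _ => reg_of_wreg (u := fun c => 1 - f c) hf' h0 h1 Q) _ Ideal.Quotient.mk_surjective
    (Ideal.mk_ker.trans (ofList_all (u := fun c => 1 - f c) hf'))

end Pool.Agent.Lib.E2
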